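import Pool.Agent.Lib.MP_e5111b_co.Geo

namespace Pool.Agent.Results.MP_e5111b_co.LargeFamilies

theorem result (k : ℕ) (hk : 3 ≤ k) (m : ZMod k → ℕ) (a b : ZMod k)
    (hab : b = a + 1 ∨ a = b + 1) (hb : m b ≤ 1)
    (hm : ((∀ j, j ≠ a → j ≠ b → m j = 0) ∧ (m a ≤ 3 ∨ k = 3 ∨ (k = 4 ∧ m b = 0))) ∨
      (m a ≤ 1 ∧ ∃ c, m c ≤ 1 ∧ ∀ j, j ≠ a → j ≠ b → j ≠ c → m j = 0)) :
    ∃ (v : ZMod k → ℂ) (E : ZMod k → Finset ℂ),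
      (∀ i j, j ≠ i → j ≠ i + 1 → 0 < ((v (i + 1)).re - (v i).re) * ((v j).im - (v i).im) -
        ((v (i + 1)).im - (v i).im) * ((v j).re - (v i).re)) ∧
      (∀ i, (E i).card = m i ∧ ∀ z ∈ E i, z ∈ openSegment ℝ (v i) (v (i + 1))) ∧
      ∀ z ∈ Set.range v ∪ ⋃ i, (E i : Set ℂ), ∀ w ∈ Set.range v ∪ ⋃ i, (E i : Set ℂ),
        ∃ q : ℚ, dist z w = q := by
  obtain ⟨v, T, h1, h2, h3, h4⟩ := Pool.Agent.Lib.MP_e5111b_co.good_of_adm hk hab ⟨hb, hm⟩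
  choose F h4 h5 using h4
  choose E h6 h7 using fun i => Finset.exists_subset_card_eq (h4 i)
  have h8 : Set.range v ∪ ⋃ i, (E i : Set ℂ) ⊆ T :=
    Set.union_subset (Set.range_subset_iff.2 h2)
      (Set.iUnion_subset fun i z hz => (h5 i z (h6 i hz)).1)
  exact ⟨v, E, h3, fun i => ⟨h7 i, fun z hz => (h5 i z (h6 i hz)).2⟩,
    fun z hz w hw => h1 z (h8 hz) w (h8 hw)⟩

end Pool.Agent.Results.MP_e5111b_co.LargeFamilies
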