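import Pool.Agent.Lib.MP_e5111b_co.FG.Bridge

namespace Pool.Agent.Results.MP_e5111b_co.NoFamilies

theorem result : ∀ d : ℕ, ∃ m : ℕ, ∀ p : Polynomial (Polynomial ℝ), Irreducible p →
    p.natDegree ≤ d → (∀ i, (p.coeff i).natDegree ≤ d) →
    ∀ I : Set (ℝ × ℝ), I.Infinite → (∀ z ∈ I, p.evalEval z.1 z.2 = 0) →
    ∀ (ι : Type) (X : ι → ℝ × ℝ → ℂ) (R G : ι → ι → Polynomial (Polynomial ℝ)),
    (∀ z ∈ I, ∀ a b, (G a b).evalEval z.1 z.2 ≠ 0 ∧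
      dist (X a z) (X b z) = |(R a b).evalEval z.1 z.2 / (G a b).evalEval z.1 z.2|) →
    ∀ g : Fin 3 → Fin m → ι,
    (∀ z ∈ I, (∀ i, Function.Injective fun j => X (g i j) z) ∧ ∃ o e : Fin 3 → ℂ,
      (∀ i, e i ≠ 0) ∧ (∀ i j, ∃ s : ℝ, X (g i j) z = o i + s * e i) ∧
      (¬ ∃ w, ∀ i, ∃ s : ℝ, w = o i + s * e i) ∧ ¬ ∀ i, ∃ s : ℝ, e i = s * e 0) →
    ∀ z ∈ I, ∀ z' ∈ I, ∃ l : ℝ, 0 < l ∧
      ∀ a b, dist (X a z') (X b z') = l * dist (X a z) (X b z) :=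
  Pool.Agent.Lib.MP_e5111b_co.FG.final

end Pool.Agent.Results.MP_e5111b_co.NoFamilies
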