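import Pool.Agent.Lib.MP_e5111b_co.Ke.Main
import Pool.Agent.Lib.MP_e5111b_co.Gp.Cvx

set_option autoImplicit false

namespace Pool.Agent.Results.MP_e5111b_co.Paucity

open Pool.Agent.Lib.MP_e5111b_co

/-- At most `C N ^ ε` matrices of coprime integer distances at most `N` come from `n` points such
that every line misses `k` points and either every circle misses `k` points or the points are in
weakly convex position with `3 k` non-vertices; `k` depends on `ε` only. -/
theorem result (ε : ℝ) (hε : 0 < ε) : ∃ k : ℕ, ∀ n : ℕ, ∃ C : ℝ, ∀ N : ℕ, 1 ≤ N →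
    (({D : Fin n → Fin n → ℕ |
        (∀ a b, D a b ≤ N) ∧ (∀ q : ℕ, (∀ a b, q ∣ D a b) → q = 1) ∧
        ∃ X : Fin n → ℂ, Function.Injective X ∧ (∀ a b, dist (X a) (X b) = D a b) ∧
          (∀ u w : ℂ, k ≤ {i | X i ∉ line[ℝ, u, w]}.ncard) ∧
          ((∀ (o : ℂ) (r : ℝ), k ≤ {i | X i ∉ Metric.sphere o r}.ncard) ∨
            ((∀ i, X i ∈ frontier (convexHull ℝ (Set.range X))) ∧
              3 * k ≤ {i | ∃ a b, Sbtw ℝ (X a) (X i) (X b)}.ncard))}.ncard : ℕ) : ℝ) ≤
      C * (N : ℝ) ^ ε := by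
  obtain ⟨k, h1, h⟩ := Ke.paucity ε hε
  refine ⟨k, fun n => ?_⟩
  obtain ⟨C, hC⟩ := h n
  refine ⟨C, fun N hN => le_trans (Nat.cast_le.2 ?_) (hC N hN)⟩
  refine Set.ncard_le_ncard_of_injOn (fun D i => (D i.1 i.2 : ℤ)) ?_ (fun D _ D' _ e => ?_) ?_
  · rintro D ⟨h0, h2, X, h3, h4, h5, h6⟩
    refine ⟨fun i => by simpa using h0 i.1 i.2,
      fun q hq => h2 q fun a b => Int.natCast_dvd_natCast.1 (hq (a, b)),
      X, h3, fun a b => by simpa using h4 a b, h5, h6.elim id fun h7 o r => ?_⟩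
    have := Gp.miss_circle h3 h7.1 (fun u w => Set.nonempty_of_ncard_ne_zero
      (s := {i | X i ∉ line[ℝ, u, w]}) (by
        have := h5 u w
        omega)) o r
    have := h7.2
    omega
  · funext a b
    exact Nat.cast_injective (R := ℤ) (congrFun e (a, b))
  · exact (Set.Finite.pi' fun _ => Set.finite_Icc (-(N : ℤ)) N).subset fun P hP i =>
      abs_le.1 (hP.1 i)

end Pool.Agent.Results.MP_e5111b_co.Paucity
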